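import Pool.Agent.MP_a2e0a9_al.Defs

/-! A numbering of terms. -/

namespace Pool.Agent.MP_a2e0a9_al

/-- The number of a term, built with the pairing function of the natural numbers. -/
def Term.code : Term → ℕ
  | .var n => Nat.pair 0 n
  | .one => Nat.pair 1 0
  | .mul s t => Nat.pair 2 (Nat.pair s.code t.code)
  | .inv s => Nat.pair 3 s.code
  | .sup s t => Nat.pair 4 (Nat.pair s.code t.code)
  | .inf s t => Nat.pair 5 (Nat.pair s.code t.code)

theorem Term.code_injective : Function.Injective Term.code := by
  intro s
  induction s <;> intro t h <;> cases t <;> simp only [Term.code, Nat.pair_eq_pair] at h <;>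
    grind

end Pool.Agent.MP_a2e0a9_al
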