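import Mathlib

/-! Counter machines with undecidable halting (copied from the files of MP_8e55f0_lc). -/

section

/-! Adapted from the register programs of problem MP_435b2a_lc: here only increments and
decrementing loops are primitive. -/

namespace Pool.Agent.MP_a2e0a9_al.H1

open Function Relation

/-- structured register programs -/
inductive Prog
  | skip
  | inc (r : ℕ)
  | seq (p q : Prog)
  | loop (r : ℕ) (p : Prog)

/-- configurations: continuation and registers -/
abbrev Cfg := List Prog × (ℕ → ℕ)

/-- small step -/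
def pstep : Cfg → Option Cfg
  | ([], _) => none
  | (.skip :: k, s) => some (k, s)
  | (.inc r :: k, s) => some (k, update s r (s r + 1))
  | (.seq p q :: k, s) => some (p :: q :: k, s)
  | (.loop r p :: k, s) =>
      if s r = 0 then some (k, s) else some (p :: .loop r p :: k, update s r (s r - 1))

/-- step relation -/
def PS (c c' : Cfg) : Prop := pstep c = some c'

/-- `p` run on `s` terminates with `s'` -/
def Runs (p : Prog) (s s' : ℕ → ℕ) : Prop := ∀ k, ReflTransGen PS (p :: k, s) (k, s')

lemma Runs.skip (s : ℕ → ℕ) : Runs .skip s s :=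
  fun _ => ReflTransGen.single rfl

lemma Runs.inc (r : ℕ) (s : ℕ → ℕ) : Runs (.inc r) s (update s r (s r + 1)) :=
  fun _ => ReflTransGen.single rfl

lemma Runs.seq {p q : Prog} {s s' s'' : ℕ → ℕ} (h : Runs p s s') (h' : Runs q s' s'') :
    Runs (.seq p q) s s'' :=
  fun k => ReflTransGen.head rfl ((h _).trans (h' k))

lemma Runs.loop_zero {r : ℕ} {p : Prog} {s : ℕ → ℕ} (h : s r = 0) : Runs (.loop r p) s s :=
  fun _ => ReflTransGen.single (by simp [PS, pstep, h])

lemma Runs.loop_succ {r : ℕ} {p : Prog} {s s' s'' : ℕ → ℕ} (h : s r ≠ 0)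
    (h1 : Runs p (update s r (s r - 1)) s') (h2 : Runs (.loop r p) s' s'') :
    Runs (.loop r p) s s'' :=
  fun k => ReflTransGen.head (by simp [PS, pstep, h]) ((h1 _).trans (h2 k))

/-- clearing a register -/
def Prog.zero (r : ℕ) : Prog := .loop r .skip

lemma Runs.zero (r : ℕ) (s : ℕ → ℕ) : Runs (.zero r) s (update s r 0) := by
  generalize hn : s r = n
  induction n generalizing s with
  | zero =>
    rw [← hn, update_eq_self]
    exact Runs.loop_zero hn
  | succ n ih =>
    have := ih (update s r (s r - 1)) (by simp [hn])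
    rw [update_idem] at this
    exact Runs.loop_succ (by omega) (Runs.skip _) this

lemma Runs.move2 {a b t : ℕ} (h1 : a ≠ b) (h2 : a ≠ t) (h3 : b ≠ t) (s : ℕ → ℕ) :
    Runs (.loop a (.seq (.inc b) (.inc t))) s
      (update (update (update s a 0) b (s b + s a)) t (s t + s a)) := by
  generalize hn : s a = n
  induction n generalizing s with
  | zero =>
    have : update (update (update s a 0) b (s b + 0)) t (s t + 0) = s := by
      funext r
      simp only [update_apply]
      split_ifs <;> simp_all
    rw [this]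
    exact Runs.loop_zero hn
  | succ n ih =>
    refine Runs.loop_succ (by omega) ((Runs.inc _ _).seq (Runs.inc _ _)) ?_
    convert ih _ ?_ using 1
    · funext r
      simp only [update_apply]
      split_ifs <;> simp_all <;> omega
    · simp [h1, h2, hn]

lemma Runs.move1 {a t : ℕ} (h2 : a ≠ t) (s : ℕ → ℕ) :
    Runs (.loop t (.inc a)) s (update (update s t 0) a (s a + s t)) := by
  generalize hn : s t = n
  induction n generalizing s with
  | zero =>
    have : update (update s t 0) a (s a + 0) = s := by
      funext r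
      simp only [update_apply]
      split_ifs <;> simp_all
    rw [this]
    exact Runs.loop_zero hn
  | succ n ih =>
    refine Runs.loop_succ (by omega) (Runs.inc _ _) ?_
    convert ih _ ?_ using 1
    · funext r
      simp only [update_apply]
      split_ifs <;> simp_all <;> omega
    · simp [h2.symm, hn]

/-- copying a register with the help of a scratch register -/
def Prog.copy (a b t : ℕ) : Prog :=
  .seq (.zero b) (.seq (.zero t) (.seq (.loop a (.seq (.inc b) (.inc t))) (.loop t (.inc a))))

lemma Runs.copy {a b t : ℕ} (h1 : a ≠ b) (h2 : a ≠ t) (h3 : b ≠ t) (s : ℕ → ℕ) :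
    Runs (.copy a b t) s (update (update s t 0) b (s a)) := by
  refine (Runs.zero _ _).seq ((Runs.zero _ _).seq ((Runs.move2 h1 h2 h3 _).seq ?_))
  convert Runs.move1 h2 _ using 1
  funext r
  simp only [update_apply]
  split_ifs <;> simp_all

/-- `f` is computed with arbitrary placement of input and output registers -/
def Computes {n : ℕ} (f : List.Vector ℕ n → ℕ) : Prop :=
  ∀ (inp : Fin n → ℕ) (out b : ℕ), (∀ i, inp i < b) → out < b → (∀ i, inp i ≠ out) →
    ∃ p : Prog, ∀ s : ℕ → ℕ, ∃ s', Runs p s s' ∧
      s' out = f (List.Vector.ofFn fun i => s (inp i)) ∧ ∀ r, r < b → r ≠ out → s' r = s r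

lemma computes_many {m n : ℕ} (g : Fin n → List.Vector ℕ m → ℕ) (hg : ∀ i, Computes (g i))
    (inp : Fin m → ℕ) (b : ℕ) (hb : ∀ i, inp i < b) (j : ℕ) (hj : j ≤ n) :
    ∃ p : Prog, ∀ s : ℕ → ℕ, ∃ s', Runs p s s' ∧
      (∀ i : Fin n, i.1 < j → s' (b + i) = g i (List.Vector.ofFn fun i => s (inp i))) ∧
      ∀ r, r < b → s' r = s r := by
  induction j with
  | zero =>
    refine ⟨.skip, fun s => ⟨_, Runs.skip s, fun i hi => absurd hi (by omega), ?_⟩⟩
    simp
  | succ j ih =>
    obtain ⟨p, hp⟩ := ih (by omega)
    obtain ⟨q, hq⟩ := hg ⟨j, by omega⟩ inp (b + j) (b + n) (fun i => by have := hb i; omega)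
      (by omega) (fun i => by have := hb i; omega)
    refine ⟨.seq p q, fun s => ?_⟩
    obtain ⟨s₁, r1, a1, b1⟩ := hp s
    obtain ⟨s₂, r2, a2, b2⟩ := hq s₁
    refine ⟨s₂, r1.seq r2, fun i hi => ?_, fun r hr => ?_⟩
    · by_cases hij : i.1 = j
      · obtain ⟨i, hi'⟩ := i
        simp only at hij
        subst hij
        rw [a2]
        congr 2
        exact funext fun i => b1 _ (hb i)
      · rw [b2 _ (by omega) (by omega), a1 i (by omega)]
    · rw [b2 _ (by omega) (by omega), b1 r hr]

lemma computes_of_prim {n : ℕ} {f : List.Vector ℕ n → ℕ} (hf : Nat.Primrec' f) : Computes f := by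
  induction hf with
  | zero =>
    intro inp out b _ _ _
    exact ⟨.zero out, fun s => ⟨_, Runs.zero out s, by simp, fun r _ hr => by simp [hr]⟩⟩
  | succ =>
    intro inp out b h1 h2 h3
    refine ⟨.seq (.copy (inp 0) out b) (.inc out), fun s =>
      ⟨_, (Runs.copy (h3 0) (h1 0).ne h2.ne s).seq (Runs.inc _ _), by simp,
        fun r hr' hr => by simp [hr, hr'.ne]⟩⟩
  | get i =>
    intro inp out b h1 h2 h3
    exact ⟨.copy (inp i) out b, fun s => ⟨_, Runs.copy (h3 i) (h1 i).ne h2.ne s, by simp,
      fun r hr' hr => by simp [hr, hr'.ne]⟩⟩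
  | @comp m n f g _ _ ihf ihg =>
    intro inp out b h1 h2 h3
    obtain ⟨p, hp⟩ := computes_many g ihg inp b h1 n le_rfl
    obtain ⟨q, hq⟩ := ihf (fun i => b + i) out (b + n) (fun i => by have := i.2; omega)
      (by omega) (fun i => by omega)
    refine ⟨.seq p q, fun s => ?_⟩
    obtain ⟨s₁, r1, a1, b1⟩ := hp s
    obtain ⟨s₂, r2, a2, b2⟩ := hq s₁
    refine ⟨s₂, r1.seq r2, ?_, fun r hr hr' => ?_⟩
    · rw [a2]
      congr 2
      exact funext fun i => a1 i i.2
    · rw [b2 r (by omega) hr', b1 r hr]
  | @prec n f g _ _ ihf ihg =>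
    intro inp out b h1 h2 h3
    obtain ⟨p, hp⟩ := ihf (fun i => inp i.succ) out b (fun i => h1 _) h2 (fun i => h3 _)
    obtain ⟨q, hq⟩ := ihg (Fin.cons b (Fin.cons out fun i => inp i.succ)) (b + 2) (b + 3)
      (fun i => by
        refine Fin.cases ?_ (fun i => Fin.cases ?_ (fun i => ?_) i) i
        · simp
        · simp only [Fin.cons_succ, Fin.cons_zero]; omega
        · have := h1 i.succ
          simp only [Fin.cons_succ]; omega)
      (by omega)
      (fun i => by
        refine Fin.cases ?_ (fun i => Fin.cases ?_ (fun i => ?_) i) i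
        · simp
        · simp only [Fin.cons_succ, Fin.cons_zero]; omega
        · have := h1 i.succ
          simp only [Fin.cons_succ]; omega)
    let body : Prog := .seq q (.seq (.copy (b + 2) out (b + 3)) (.inc b))
    refine ⟨.seq p (.seq (.zero b) (.seq (.copy (inp 0) (b + 1) (b + 2)) (.loop (b + 1) body))),
      fun s => ?_⟩
    let t : List.Vector ℕ n := List.Vector.ofFn fun i => s (inp i.succ)
    let F : ℕ → ℕ := fun y => y.rec (f t) fun y IH => g (y ::ᵥ IH ::ᵥ t)
    have key : ∀ (c y : ℕ) (s₁ : ℕ → ℕ), s₁ (b + 1) = c → s₁ b = y → s₁ out = F y →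
        (∀ r, r < b → r ≠ out → s₁ r = s r) →
        ∃ s', Runs (.loop (b + 1) body) s₁ s' ∧ s' out = F (y + c) ∧
          ∀ r, r < b → r ≠ out → s' r = s r := by
      intro c
      induction c with
      | zero => exact fun y s₁ e1 _ e3 e4 => ⟨s₁, Runs.loop_zero e1, e3, e4⟩
      | succ c ih =>
        intro y s₁ e1 e2 e3 e4
        obtain ⟨s₂, r2, a2, b2⟩ := hq (update s₁ (b + 1) (s₁ (b + 1) - 1))
        have hv : (List.Vector.ofFn fun i => update s₁ (b + 1) (s₁ (b + 1) - 1)
            ((Fin.cons b (Fin.cons out fun i => inp i.succ) : Fin (n + 2) → ℕ) i)) =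
            y ::ᵥ F y ::ᵥ t := by
          apply List.Vector.ext
          intro i
          rw [List.Vector.get_ofFn]
          refine Fin.cases ?_ (fun i => Fin.cases ?_ (fun i => ?_) i) i
          · simp [e2]
          · simp only [Fin.cons_succ, Fin.cons_zero, List.Vector.get_cons_succ,
              List.Vector.get_cons_zero]
            rw [update_of_ne (by omega), e3]
          · simp only [Fin.cons_succ, List.Vector.get_cons_succ, t, List.Vector.get_ofFn]
            have := h1 i.succ
            rw [update_of_ne (by omega), e4 _ this (h3 _)]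
        rw [hv] at a2
        obtain ⟨s', r3, a3, b3⟩ := ih (y + 1)
          (update (update (update s₂ (b + 3) 0) out (s₂ (b + 2))) b
            (update (update s₂ (b + 3) 0) out (s₂ (b + 2)) b + 1))
          (by
            rw [update_of_ne (by omega), update_of_ne (by omega), update_of_ne (by omega),
              b2 _ (by omega) (by omega), update_self, e1]
            rfl)
          (by
            rw [update_self, update_of_ne (by omega), update_of_ne (by omega),
              b2 _ (by omega) (by omega), update_of_ne (by omega), e2])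
          (by rw [update_of_ne (by omega), update_self, a2])
          (fun r hr hr' => by
            rw [update_of_ne (by omega), update_of_ne hr', update_of_ne (by omega),
              b2 _ (by omega) (by omega), update_of_ne (by omega), e4 r hr hr'])
        refine ⟨s', Runs.loop_succ (by omega)
          (r2.seq ((Runs.copy (by omega) (by omega) (by omega) _).seq (Runs.inc _ _))) r3, ?_, b3⟩
        rw [a3, show y + 1 + c = y + (c + 1) by omega]
    obtain ⟨s₁, r1, a1, b1⟩ := hp s
    have h10 := h1 0
    obtain ⟨s', r3, a3, b3⟩ := key (s (inp 0)) 0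
      (update (update (update s₁ b 0) (b + 2) 0) (b + 1) (update s₁ b 0 (inp 0)))
      (by rw [update_self, update_of_ne (by omega), b1 _ h10 (h3 0)])
      (by rw [update_of_ne (by omega), update_of_ne (by omega), update_self])
      (by rw [update_of_ne (by omega), update_of_ne (by omega), update_of_ne (by omega), a1]; rfl)
      (fun r hr hr' => by
        rw [update_of_ne (by omega), update_of_ne (by omega), update_of_ne (by omega),
          b1 r hr hr'])
    refine ⟨s', r1.seq ((Runs.zero _ _).seq
      ((Runs.copy (by omega) (by omega) (by omega) _).seq r3)), ?_, b3⟩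
    rw [a3, zero_add]
    simp only [List.Vector.head_ofFn, List.Vector.tail_ofFn]
    rfl

/-- the configuration reaches the empty continuation -/
def PHalts (c : Cfg) : Prop := ∃ s', ReflTransGen PS c ([], s')

lemma not_pHalts_of_inv (I : Cfg → Prop) (hI : ∀ c, I c → ∃ c', TransGen PS c c' ∧ I c')
    (c : Cfg) (hc : I c) : ¬ PHalts c := by
  rintro ⟨s', h⟩
  have key : ∀ c, ReflTransGen PS c ([], s') → ∀ c', ReflTransGen PS c c' → ¬ I c' := by
    intro c h
    induction h using ReflTransGen.head_induction_on with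
    | refl =>
      intro c' h' hc'
      obtain ⟨c'', h'', _⟩ := hI c' hc'
      obtain ⟨d, hd, _⟩ := TransGen.head'_iff.mp (TransGen.trans_right h' h'')
      simp [PS, pstep] at hd
    | head hab _ ih =>
      intro c' h' hc'
      obtain ⟨c'', h'', hc''⟩ := hI c' hc'
      obtain ⟨d, hd, hd'⟩ := TransGen.head'_iff.mp (TransGen.trans_right h' h'')
      have : d = _ := Option.some.inj (hd.symm.trans hab)
      subst this
      exact ih c'' hd' hc''
  exact key c h c ReflTransGen.refl hc

lemma exists_search {g : ℕ → ℕ → ℕ} (hg : Primrec₂ g) :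
    ∃ p : Prog, ∀ s : ℕ → ℕ, PHalts ([p], s) ↔ ∃ j, g (s 0) j = 0 := by
  obtain ⟨q, hq⟩ := computes_of_prim (Nat.Primrec'.prim_iff₂.mpr hg) ![0, 1] 2 3
    (fun i => by fin_cases i <;> simp) (by norm_num) (fun i => by fin_cases i <;> simp)
  have hq' : ∀ s : ℕ → ℕ, ∃ s', Runs q s s' ∧ s' 2 = g (s 0) (s 1) ∧ s' 0 = s 0 ∧ s' 1 = s 1 := by
    intro s
    obtain ⟨s', a, b, c⟩ := hq s
    refine ⟨s', a, ?_, c 0 (by norm_num) (by norm_num), c 1 (by norm_num) (by norm_num)⟩
    rw [b]
    simp
  let lp : Prog := .loop 2 (.seq (.inc 1) q)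
  have body : ∀ s : ℕ → ℕ, ∃ s', Runs (.seq (.inc 1) q) (update s 2 (s 2 - 1)) s' ∧
      s' 2 = g (s 0) (s 1 + 1) ∧ s' 0 = s 0 ∧ s' 1 = s 1 + 1 := by
    intro s
    obtain ⟨s', a, b, c, d⟩ := hq' (update (update s 2 (s 2 - 1)) 1 (update s 2 (s 2 - 1) 1 + 1))
    refine ⟨s', (Runs.inc _ _).seq a, ?_, ?_, ?_⟩
    · simpa using b
    · simpa using c
    · simpa using d
  refine ⟨.seq (.zero 1) (.seq q lp), fun s => ?_⟩
  obtain ⟨s₁, r1, a1, b1, c1⟩ := hq' (update s 1 0)
  simp only [ne_eq, zero_ne_one, not_false_eq_true, update_of_ne, update_self] at a1 b1 c1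
  have start : TransGen PS ([Prog.seq (.zero 1) (.seq q lp)], s) ([lp], s₁) :=
    TransGen.head' rfl ((Runs.zero 1 s _).trans (ReflTransGen.head rfl (r1 _)))
  constructor
  · intro h
    by_contra hne
    push Not at hne
    refine not_pHalts_of_inv (fun c => c = ([Prog.seq (.zero 1) (.seq q lp)], s) ∨
      (c.1 = [lp] ∧ c.2 0 = s 0 ∧ c.2 2 = g (s 0) (c.2 1))) ?_ _ (Or.inl rfl) h
    rintro ⟨k, t⟩ (hc | ⟨rfl, h1, h2⟩)
    · rw [hc]
      exact ⟨_, start, Or.inr ⟨rfl, b1, a1.trans (congrArg _ c1.symm)⟩⟩
    · obtain ⟨t', a, b, c, d⟩ := body t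
      simp only at h1 h2
      have : t 2 ≠ 0 := by rw [h2]; exact hne _
      refine ⟨([lp], t'), TransGen.head' (by simp [PS, pstep, lp, this]) (a _), Or.inr
        ⟨rfl, c.trans h1, ?_⟩⟩
      simp only
      rw [b, d, h1]
  · rintro ⟨j, hj⟩
    have key : ∀ (i : ℕ) (t : ℕ → ℕ), t 0 = s 0 → t 1 + i = j → t 2 = g (s 0) (t 1) →
        ∃ t', Runs lp t t' := by
      intro i
      induction i with
      | zero =>
        intro t _ h2 h3
        exact ⟨t, Runs.loop_zero (by rw [h3, show t 1 = j from h2, hj])⟩
      | succ i ih =>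
        intro t h1 h2 h3
        by_cases h0 : t 2 = 0
        · exact ⟨t, Runs.loop_zero h0⟩
        · obtain ⟨t', a, b, c, d⟩ := body t
          obtain ⟨t'', h⟩ := ih t' (c.trans h1) (by omega) (by rw [b, d, h1])
          exact ⟨t'', Runs.loop_succ h0 a h⟩
    obtain ⟨t', h⟩ := key j s₁ b1 (by omega) (by rw [c1]; exact a1)
    exact ⟨t', start.to_reflTransGen.trans (h [])⟩

open Nat.Partrec (Code) in
lemma exists_undecidable_prog :
    ∃ (p : Prog) (S : ℕ → Prop), ¬ ComputablePred S ∧ ∀ s : ℕ → ℕ, PHalts ([p], s) ↔ S (s 0) := by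
  have hg : Primrec₂ fun (n j : ℕ) =>
      if (Code.evaln j (Denumerable.ofNat Code n) 0).isSome then 0 else 1 := by
    refine Primrec.ite ?_ (Primrec.const 0) (Primrec.const 1)
    refine Primrec.primrecPred ?_
    have := Primrec.option_isSome.comp (Code.primrec_evaln.comp
      ((Primrec.snd.pair ((Primrec.ofNat Code).comp (Primrec.fst (α := ℕ) (β := ℕ)))).pair
        (Primrec.const 0)))
    simpa using this
  obtain ⟨p, hp⟩ := exists_search hg
  refine ⟨p, fun n => (Code.eval (Denumerable.ofNat Code n) 0).Dom, fun h => ?_, fun s => ?_⟩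
  · apply ComputablePred.halting_problem 0
    obtain ⟨f, hf, e⟩ := ComputablePred.computable_iff.mp h
    refine ComputablePred.computable_iff.mpr
      ⟨fun c => f (Encodable.encode c), hf.comp Computable.encode, ?_⟩
    ext c
    have := congrFun e (Encodable.encode c)
    simp only [Denumerable.ofNat_encode] at this
    rw [this]
  · rw [hp]
    beta_reduce
    rw [Part.dom_iff_mem]
    simp only [Code.evaln_complete, ite_eq_left_iff, one_ne_zero, imp_false, not_not,
      Option.isSome_iff_exists]
    exact exists_comm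

end Pool.Agent.MP_a2e0a9_al.H1

end

section

namespace Pool.Agent.MP_a2e0a9_al.H1

open Function Relation

/-- counter machines -/
structure MM (P : Type) where
  K : ℕ
  start : P
  halt : P → Prop
  reg : P → ℕ
  inc : P → Bool
  dec : P → Bool
  nxt : P → Bool → P
  reg_lt : ∀ q, reg q < K

namespace MM

variable {P : Type} (M : MM P)

/-- outcome of the zero test -/
def zf (c : P × (ℕ → ℕ)) : Bool := M.dec c.1 && decide (c.2 (M.reg c.1) = 0)

/-- one step -/
def step (c : P × (ℕ → ℕ)) : P × (ℕ → ℕ) :=
  (M.nxt c.1 (M.zf c), update c.2 (M.reg c.1)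
    (if M.dec c.1 then c.2 (M.reg c.1) - 1 else if M.inc c.1 then c.2 (M.reg c.1) + 1
      else c.2 (M.reg c.1)))

/-- configuration after `k` steps -/
def cfg (N k : ℕ) : P × (ℕ → ℕ) := M.step^[k] (M.start, fun _ => N)

lemma cfg_succ (N k : ℕ) : M.cfg N (k + 1) = M.step (M.cfg N k) := iterate_succ_apply' _ _ _

end MM

/-- register used by the head instruction -/
def freg : List Prog → ℕ
  | .inc r :: _ => r
  | .loop r _ :: _ => r
  | _ => 0

/-- next control -/
def fnxt : List Prog → Bool → List Prog
  | [], _ => []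
  | .skip :: k, _ => k
  | .inc _ :: k, _ => k
  | .seq p q :: k, _ => p :: q :: k
  | .loop r p :: k, z => if z then k else p :: .loop r p :: k

/-- increment -/
def finc : List Prog → Bool
  | .inc _ :: _ => true
  | _ => false

/-- decrement -/
def fdec : List Prog → Bool
  | .loop _ _ :: _ => true
  | _ => false

/-- continuations reachable while running `p` before `k` -/
def conts : Prog → List Prog → List (List Prog)
  | .skip, k => [.skip :: k]
  | .inc r, k => [.inc r :: k]
  | .seq p q, k => (.seq p q :: k) :: (conts p (q :: k) ++ conts q k)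
  | .loop r p, k => (.loop r p :: k) :: conts p (.loop r p :: k)

lemma self_mem_conts (p : Prog) (k : List Prog) : p :: k ∈ conts p k := by
  cases p <;> simp [conts]

lemma conts_closed (p : Prog) : ∀ (k c : List Prog) (z : Bool), c ∈ conts p k →
    fnxt c z ∈ conts p k ∨ fnxt c z = k := by
  induction p with
  | skip => intro k c z h; simp [conts] at h; simp [h, fnxt]
  | inc r => intro k c z h; simp [conts] at h; simp [h, fnxt]
  | seq p q ihp ihq =>
    intro k c z h
    simp only [conts, List.mem_cons, List.mem_append] at h ⊢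
    rcases h with rfl | h | h
    · exact Or.inl (Or.inr (Or.inl (self_mem_conts p _)))
    · rcases ihp _ c z h with h | h
      · exact Or.inl (Or.inr (Or.inl h))
      · exact Or.inl (Or.inr (Or.inr (h ▸ self_mem_conts q k)))
    · rcases ihq _ c z h with h | h
      · exact Or.inl (Or.inr (Or.inr h))
      · exact Or.inr h
  | loop r p ih =>
    intro k c z h
    simp only [conts, List.mem_cons] at h ⊢
    rcases h with rfl | h
    · cases z
      · exact Or.inl (Or.inr (self_mem_conts p _))
      · exact Or.inr rfl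
    · rcases ih _ c z h with h | h
      · exact Or.inl (Or.inr h)
      · exact Or.inl (Or.inl h)

theorem exists_mm0 : ∃ (P : Type) (_ : Finite P) (M : MM P) (S : ℕ → Prop),
    ¬ ComputablePred S ∧ ∀ N, (∃ k, M.halt (M.cfg N k).1) ↔ S N := by
  classical
  obtain ⟨p, S, hS, hp⟩ := exists_undecidable_prog
  let L : List (List Prog) := [] :: conts p []
  obtain ⟨K, hK⟩ : ∃ K, ∀ c ∈ L, freg c < K := by
    refine ⟨L.toFinset.sup freg + 1, fun c hc => Nat.lt_succ_of_le ?_⟩
    exact Finset.le_sup (List.mem_toFinset.mpr hc)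
  have hcl : ∀ c ∈ L, ∀ z, fnxt c z ∈ L := by
    intro c hc z
    rcases List.mem_cons.mp hc with rfl | hc
    · simp [L, fnxt]
    · rcases conts_closed p [] c z hc with h | h
      · exact List.mem_cons_of_mem _ h
      · rw [h]; simp [L]
  let M : MM {c // c ∈ L} :=
    { K := K
      start := ⟨[p], List.mem_cons_of_mem _ (self_mem_conts p [])⟩
      halt := fun c => c.1 = []
      reg := fun c => freg c.1
      inc := fun c => finc c.1
      dec := fun c => fdec c.1
      nxt := fun c z => ⟨fnxt c.1 z, hcl _ c.2 z⟩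
      reg_lt := fun c => hK _ c.2 }
  have key : ∀ c : {c // c ∈ L} × (ℕ → ℕ), c.1.1 ≠ [] →
      PS (c.1.1, c.2) ((M.step c).1.1, (M.step c).2) := by
    rintro ⟨⟨c, hc⟩, s⟩ h
    rcases c with _ | ⟨q, k⟩
    · exact (h rfl).elim
    cases q with
    | loop r q =>
      by_cases h0 : s r = 0
      · simp only [PS, pstep, MM.step, MM.zf, M, freg, fnxt, fdec, h0]
        simp [eq_comm (a := s), h0]
      · simp [PS, pstep, MM.step, MM.zf, M, freg, fnxt, fdec, h0]
    | _ => simp [PS, pstep, MM.step, M, freg, fnxt, fdec, finc]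
  refine ⟨{c // c ∈ L}, inferInstance, M, S, hS, fun N => ?_⟩
  rw [← hp fun _ => N]
  constructor
  · intro h
    have h1 := Nat.find_spec h
    have h2 := @Nat.find_min _ _ h
    generalize Nat.find h = k at h1 h2
    have : ∀ j, j ≤ k → ReflTransGen PS ([p], fun _ => N) ((M.cfg N j).1.1, (M.cfg N j).2) := by
      intro j hj
      induction j with
      | zero => exact ReflTransGen.refl
      | succ j ih =>
        rw [MM.cfg_succ]
        exact (ih (by omega)).tail (key _ (h2 (by omega)))
    have k1 := this k le_rfl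
    rw [show (M.cfg N k).1.1 = [] from h1] at k1
    exact ⟨_, k1⟩
  · rintro ⟨s', h⟩
    have : ∀ c' : Cfg, ReflTransGen PS ([p], fun _ => N) c' →
        ∃ k, c' = ((M.cfg N k).1.1, (M.cfg N k).2) := by
      intro c' h
      induction h with
      | refl => exact ⟨0, rfl⟩
      | tail _ h2 ih =>
        obtain ⟨k, rfl⟩ := ih
        refine ⟨k + 1, ?_⟩
        rw [MM.cfg_succ]
        have := key (M.cfg N k) fun e => by simp [PS, pstep, e] at h2
        exact Option.some.inj (h2.symm.trans this)
    obtain ⟨k, e⟩ := this _ h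
    exact ⟨k, (congrArg Prod.fst e).symm⟩

end Pool.Agent.MP_a2e0a9_al.H1

end
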